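import Pool.Agent.Lib.helper21.DLO

set_option autoImplicit false

namespace Pool.Agent.Results.MP_670fc8_lc.No

open FirstOrder FirstOrder.Language Cardinal Filter Set Pool.Agent.Lib.helper21.RN

section Defs

variable {L : FirstOrder.Language.{0, 0}}

/-- The set defined by the instance `φ(x; b)`. -/
def inst {N : Type} [L.Structure N] {k m : ℕ} (φ : L.Formula (Fin k ⊕ Fin m)) (b : Fin m → N) :
    Set (Fin k → N) := {x | φ.Realize (Sum.elim x b)}

/-- `ψ(x; z)` has independence dimension at most one in `N`. -/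
def Dim1 (N : Type) [L.Structure N] {m : ℕ} (ψ : L.Formula (Fin 1 ⊕ Fin m)) : Prop :=
  ¬∃ b c : Fin m → N, (inst ψ b ∩ inst ψ c).Nonempty ∧ (inst ψ b \ inst ψ c).Nonempty ∧
    (inst ψ c \ inst ψ b).Nonempty ∧ (inst ψ b ∪ inst ψ c)ᶜ.Nonempty

/-- Weak VC-minimality, read in the model `N`. -/
def WVC (L : FirstOrder.Language.{0, 0}) (N : Type) [L.Structure N] : Prop :=
  ∀ (m : ℕ) (φ : L.Formula (Fin 1 ⊕ Fin m)) (b : Fin m → N), ∃ (n : ℕ) (l : Fin n → ℕ)
    (ψ : ∀ i, L.Formula (Fin 1 ⊕ Fin (l i))) (c : ∀ i, Fin (l i) → N)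
    (F : (Fin n → Prop) → Prop), (∀ i, Dim1 N (ψ i)) ∧
      ∀ x, x ∈ inst φ b ↔ F fun i => x ∈ inst (ψ i) (c i)

/-- No model realises a pattern of depth two. -/
def DpMin (T : L.Theory) : Prop :=
  ∀ N : Theory.ModelType.{0, 0, 0} T, ¬∃ (m l : ℕ) (φ : L.Formula (Fin 1 ⊕ Fin m))
    (ψ : L.Formula (Fin 1 ⊕ Fin l)) (b : ℕ → Fin m → N) (c : ℕ → Fin l → N), ∀ i j, ∃ x,
      (∀ k, x ∈ inst φ (b k) ↔ k = i) ∧ ∀ k, x ∈ inst ψ (c k) ↔ k = j

/-- The number of `φ`-types in `k` variables over `B` is `O(|B| ^ k)`. -/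
def Low (T : L.Theory) : Prop :=
  ∀ (k m : ℕ) (φ : L.Formula (Fin k ⊕ Fin m)), ∃ C : ℕ, ∀ (N : Theory.ModelType.{0, 0, 0} T)
    (B : Finset (Fin m → N)), B.Nonempty →
      (range fun x => {b | b ∈ B ∧ x ∈ inst φ b}).ncard ≤ C * B.card ^ k

end Defs

abbrev X := ℚ ⊕ₗ ℚ

instance : Countable X := inferInstanceAs (Countable (ℚ ⊕ ℚ))

def R (x y z : X) : Prop := x < y ∧ y < z ∨ y < z ∧ z < x ∨ z < x ∧ x < y

def G : Subgroup (Equiv.Perm X) where
  carrier := {g | ∀ x y z, R (g x) (g y) (g z) ↔ R x y z}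
  one_mem' := fun _ _ _ => .rfl
  mul_mem' := fun a b _ _ _ => (a _ _ _).trans (b _ _ _)
  inv_mem' := fun {g} a x y z => by simpa using (a (g⁻¹ x) (g⁻¹ y) (g⁻¹ z)).symm

theorem hom {α : Type} [Finite α] (x y : α → X) (h : ∀ i j, x i < x j ↔ y i < y j) :
    ∃ g ∈ G, g ∘ x = y := by
  obtain ⟨g, hg⟩ := dlo_homog x y h
  exact ⟨g.toEquiv, fun _ _ _ => by simp [R], funext hg⟩

theorem olig : Olig G := fun α _ => ⟨α → α → Prop, inferInstance, fun x i j => x i < x j,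
  fun x y h => hom x y fun i j => iff_of_eq (congrFun₂ h i j)⟩

instance : Countable (CL G).Symbols := olig.countable

theorem rot {a b c d : X} (h1 : a < b) (h2 : b < c) (h3 : c < d) :
    ∃ g ∈ G, g a = d ∧ g b = a ∧ g c = b ∧ g d = c := by
  have s : ∀ {a b c d : X}, a < b → b < c → c < d → StrictMono ![a, b, c, d] := fun h1 h2 h3 =>
    Fin.strictMono_iff_lt_succ.2 fun i => by fin_cases i <;> assumption
  have s' : ∀ {x y : Fin 4 → X}, StrictMono x → StrictMono y → ∃ g ∈ G, g ∘ x = y :=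
    fun h k => hom _ _ fun i j => h.lt_iff_lt.trans k.lt_iff_lt.symm
  obtain ⟨f, f1, f2⟩ := s' (s h1 h2 h3) (s (a := toLex (.inl 0)) (b := toLex (.inr 0))
    (c := toLex (.inr 1)) (d := toLex (.inr 2)) (by simp) (by simp) (by simp))
  obtain ⟨g, g1, g2⟩ := s' (s (a := toLex (.inl 0)) (b := toLex (.inl 1))
    (c := toLex (.inl 2)) (d := toLex (.inr 0)) (by simp) (by simp) (by simp)) (s h1 h2 h3)
  let r : Equiv.Perm X := ofLex.trans ((Equiv.sumComm ℚ ℚ).trans toLex)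
  have e1 : ∀ q, r (toLex (.inl q)) = toLex (.inr q) := fun _ => rfl
  have e2 : ∀ q, r (toLex (.inr q)) = toLex (.inl q) := fun _ => rfl
  have hr : r ∈ G := fun x y z => by
    induction x using Lex.rec with | h x => ?_
    induction y using Lex.rec with | h y => ?_
    induction z using Lex.rec with | h z => ?_
    cases x <;> cases y <;> cases z <;> simp [R, e1, e2]
  exact ⟨g * r * f, mul_mem (mul_mem g1 hr) f1,
    (congrArg (g ∘ r) (congrFun f2 0)).trans (congrFun g2 3),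
    (congrArg (g ∘ r) (congrFun f2 1)).trans (congrFun g2 0),
    (congrArg (g ∘ r) (congrFun f2 2)).trans (congrFun g2 1),
    (congrArg (g ∘ r) (congrFun f2 3)).trans (congrFun g2 2)⟩

theorem same {α β : Type} [Finite α] [Finite β] (φ : (CL G).Formula (α ⊕ β)) (p : β → X)
    (x y : α → X) (h : ∀ i j, x i < x j ↔ y i < y j)
    (h' : ∀ i j, (p j < x i ↔ p j < y i) ∧ (x i < p j ↔ y i < p j)) :
    φ.Realize (Sum.elim x p) ↔ φ.Realize (Sum.elim y p) := by
  obtain ⟨g, hg, e⟩ := hom (Sum.elim x p) (Sum.elim y p) (by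
    rintro (i | i) (j | j)
    exacts [h i j, (h' i j).2, (h' j i).1, .rfl])
  rw [← e, aut hg]

theorem const {m : ℕ} {ψ : (CL G).Formula (Fin 1 ⊕ Fin m)} (h : Dim1 X ψ) (c : Fin m → X)
    {x y : X} (hx : x ∉ range c) (hy : y ∉ range c) :
    (fun _ => x) ∈ inst ψ c ↔ (fun _ => y) ∈ inst ψ c := by
  wlog l : x < y generalizing x y
  · rcases (not_lt.1 l).eq_or_lt with rfl | l
    exacts [.rfl, (this hy hx l).symm]
  have nb : ∀ x ∉ range c, ∀ y, x < y → ∃ z, x < z ∧ z < y ∧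
      ((fun _ => x) ∈ inst ψ c ↔ (fun _ => z) ∈ inst ψ c) := fun x hx y l => by
    obtain ⟨z, z1, z2⟩ := Order.exists_between_finsets {x}
      ((insert y (Finset.univ.image c)).filter (x < ·)) (by simp)
    simp only [Finset.mem_singleton, forall_eq, Finset.mem_filter, Finset.mem_insert, and_imp,
      forall_eq_or_imp, Finset.forall_mem_image, Finset.mem_univ, true_imp_iff] at z1 z2
    refine ⟨z, z1, z2.1 l, same ψ c _ _ (by simp) fun _ j => ?_⟩
    rcases (show c j ≠ x from fun e => hx ⟨j, e⟩).lt_or_gt with k | k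
    exacts [⟨iff_of_true k (k.trans z1), iff_of_false k.not_gt (k.trans z1).not_gt⟩,
      ⟨iff_of_false k.not_gt (z2.2 k).not_gt, iff_of_true k (z2.2 k)⟩]
  obtain ⟨x', a1, a2, a3⟩ := nb x hx y l
  obtain ⟨y', b1, -, b3⟩ := nb y hy _ (exists_gt y).choose_spec
  obtain ⟨g, hg, g1, g2, g3, g4⟩ := rot a1 a2 b1
  have e : ∀ z, (fun _ => g z) ∈ inst ψ (g ∘ c) ↔ (fun _ => z) ∈ inst ψ c := fun z => by
    refine Iff.trans (iff_of_eq ?_) (aut hg ψ _)
    rw [Sum.comp_elim]; rfl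
  have e1 := g1 ▸ e x
  have e2 := g2 ▸ e x'
  have e3 := g3 ▸ e y
  have e4 := g4 ▸ e y'
  by_contra k
  refine h ⟨c, g ∘ c, ?_⟩
  generalize inst ψ c = S at *
  generalize inst ψ (g ∘ c) = S' at *
  by_cases t : (fun _ => x) ∈ S
  · have t' : (fun _ => y) ∉ S := fun t' => k (iff_of_true t t')
    exact ⟨⟨_, t, e2.2 (a3.1 t)⟩, ⟨_, a3.1 t, mt e3.1 t'⟩, ⟨_, e1.2 t, mt b3.2 t'⟩,
      _, not_or.2 ⟨t', mt (e4.trans b3.symm).1 t'⟩⟩
  · have t' : (fun _ => y) ∈ S := by_contra fun t' => k (iff_of_false t t')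
    exact ⟨⟨_, t', e4.2 (b3.1 t')⟩, ⟨_, b3.1 t', mt e1.1 t⟩, ⟨_, e3.2 t', mt a3.2 t⟩,
      _, not_or.2 ⟨t, mt (e2.trans a3.symm).1 t⟩⟩

theorem code (N : Theory.ModelType.{0, 0, 0} ((CL G).completeTheory X)) (k : ℕ) {β γ : Type}
    [Fintype β] [Fintype γ] (p : β → N) (x : γ → Fin k → N)
    (h : ∀ s t, (∀ φ : (CL G).Formula (Fin k ⊕ β), φ.Realize (Sum.elim (x s) p) ↔
      φ.Realize (Sum.elim (x t) p)) → s = t) :
    Fintype.card γ ≤ 2 ^ (k * k) * ((Fintype.card β + 1) * 2) ^ k := by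
  classical
  obtain ⟨e, y, hy⟩ := down olig.cat N.is_model (Sum.elim p fun s : γ × Fin k => x s.1 s.2)
  have := Fintype.card_le_of_injective (fun s : γ =>
    ((fun i j => y (.inr (s, i)) < y (.inr (s, j)), fun i => (⟨(Finset.univ.filter fun b =>
      y (.inl b) < y (.inr (s, i))).card, Nat.lt_succ_of_le (Finset.card_le_univ _)⟩,
        ∃ b, y (.inl b) = y (.inr (s, i)))) :
      (Fin k → Fin k → Prop) × (Fin k → Fin (Fintype.card β + 1) × Prop))) fun s t l =>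
    h s t fun φ => by
      have c : ∀ s, Sum.elim (x s) p = e ∘ Sum.elim (fun i => y (.inr (s, i))) fun b => y (.inl b) :=
        fun s => funext fun i => by
          rcases i with i | i
          exacts [(hy (.inr (s, i))).symm, (hy (.inl i)).symm]
      rw [c, c, e.map_formula, e.map_formula]
      refine same φ _ _ _ (fun i j => iff_of_eq (congrFun₂ (congrArg Prod.fst l) i j)) fun i => ?_
      obtain ⟨l1, l2⟩ := Prod.ext_iff.1 (congrFun (congrArg Prod.snd l) i)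
      simp only [Fin.mk.injEq, eq_iff_iff] at l1 l2
      generalize y (.inr (s, i)) = a at l1 l2
      generalize y (.inr (t, i)) = b at l1 l2
      wlog k : a < b generalizing a b
      · rcases (not_lt.1 k).eq_or_lt with rfl | k
        exacts [fun _ => ⟨.rfl, .rfl⟩, fun j => (this b a l1.symm l2.symm k j).imp .symm .symm]
      have q : ∀ j, y (.inl j) < a ↔ y (.inl j) < b := fun j => by
        simpa using Finset.ext_iff.1 (Finset.eq_of_subset_of_card_le
          (Finset.monotone_filter_right _ fun _ _ h => h.trans k) l1.ge) j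
      have n : ¬∃ j, y (.inl j) = a := fun ⟨j, e⟩ => ((q j).2 (e ▸ k)).ne e
      refine fun j => ⟨q j, ?_⟩
      rw [lt_iff_le_and_ne, lt_iff_le_and_ne, ← not_lt, ← not_lt, q]
      exact and_congr_right fun _ => iff_of_true (fun e => n ⟨j, e.symm⟩)
        fun e => n (l2.2 ⟨j, e.symm⟩)
  simpa [← pow_mul] using this

theorem result : ∃ (L : FirstOrder.Language.{0, 0}) (T : L.Theory), T.IsComplete ∧ Low T ∧
    DpMin T ∧ ∀ N : Theory.ModelType.{0, 0, 0} T, Infinite N ∧ ¬WVC L N := by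
  classical
  refine ⟨CL G, (CL G).completeTheory X, completeTheory.isComplete _ _, fun k m φ =>
    ⟨2 ^ (k * k) * ((m + 1) * 2) ^ k, fun N B hB => ?_⟩, ?_, fun N => ?_⟩
  · have f : (range fun x => {b | b ∈ B ∧ x ∈ inst φ b}).Finite :=
      B.finite_toSet.powerset.subset (by rintro _ ⟨x, rfl⟩ b h; exact h.1)
    have := f.fintype
    rw [ncard_eq_toFinset_card', toFinset_card]
    refine (code N k (fun s : B × Fin m => s.1.1 s.2) (fun t => t.2.choose) fun s t h => ?_).trans ?_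
    · refine Subtype.ext (s.2.choose_spec.symm.trans (Eq.trans ?_ t.2.choose_spec))
      refine Set.ext fun b => and_congr_right fun hb => ?_
      have := h (φ.relabel (Sum.map id fun j => (⟨b, hb⟩, j)))
      simp only [Formula.realize_relabel, Sum.elim_comp_map] at this
      exact this
    · rw [mul_assoc, ← mul_pow]
      refine Nat.mul_le_mul_left _ (Nat.pow_le_pow_left ?_ _)
      have := hB.card_pos
      simp only [Fintype.card_prod, Fintype.card_coe, Fintype.card_fin]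
      nlinarith
  · rintro N ⟨m, l, φ, ψ, b, c, h⟩
    choose x h1 h2 using h
    have := code N 1 (β := Fin (4 * (m + l) + 5) × (Fin m ⊕ Fin l))
      (γ := Fin (4 * (m + l) + 5) × Fin (4 * (m + l) + 5))
      (fun s => s.2.elim (b s.1) (c s.1)) (fun s => x s.1 s.2) fun s t h => by
        have e1 := h (φ.relabel (Sum.map id fun j => (s.1, .inl j)))
        have e2 := h (ψ.relabel (Sum.map id fun j => (s.2, .inr j)))
        simp only [Formula.realize_relabel, Sum.elim_comp_map] at e1 e2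
        exact Prod.ext (Fin.ext ((h1 _ _ _).1 (e1.1 ((h1 _ _ _).2 rfl))))
          (Fin.ext ((h2 _ _ _).1 (e2.1 ((h2 _ _ _).2 rfl))))
    simp only [Fintype.card_prod, Fintype.card_fin, Fintype.card_sum, mul_one, pow_one] at this
    nlinarith
  obtain ⟨e0, -⟩ := down olig.cat N.is_model (α := Empty) Empty.elim
  refine ⟨.of_injective _ e0.injective, fun h => ?_⟩
  obtain ⟨φ, hφ⟩ := form (G := G) (S := {v : Fin 1 ⊕ Fin 2 → X |
    R (v (.inr 0)) (v (.inl 0)) (v (.inr 1))}) fun g hg v hv => (hg _ _ _).2 hv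
  obtain ⟨n, l, ψ, c, F, h1, h2⟩ := h 2 φ (e0 ∘ ![toLex (.inl 0), toLex (.inr 0)])
  obtain ⟨e, y, hy⟩ := down olig.cat N.is_model (Sum.elim (e0 ∘ ![toLex (.inl 0), toLex (.inr 0)])
    fun s : Σ i, Fin (l i) => c s.1 s.2)
  have t : ∀ {m} (χ : (CL G).Formula (Fin 1 ⊕ Fin m)) (d : Fin m → X) (x : Fin 1 → X),
      e ∘ x ∈ inst χ (e ∘ d) ↔ x ∈ inst χ d := fun χ d x => by
    refine Iff.trans (iff_of_eq ?_) (e.map_formula χ _)
    rw [Sum.comp_elim]; rfl
  have k : ∀ a ∉ range y, ∀ b ∉ range y, R (y (.inl 0)) a (y (.inl 1)) →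
      R (y (.inl 0)) b (y (.inl 1)) := fun a ha b hb r => by
    have c1 : (e0 ∘ ![toLex (.inl 0), toLex (.inr 0)]) = e ∘ fun j => y (.inl j) :=
      funext fun j => (hy (.inl j)).symm
    have c2 : ∀ i, c i = e ∘ fun j => y (.inr ⟨i, j⟩) := fun i =>
      funext fun j => (hy (.inr ⟨i, j⟩)).symm
    simp only [c1, c2] at h2
    refine (hφ _).1 ((t φ _ fun _ => b).1 ((h2 _).2 ((congrArg F (funext fun i => ?_)).mp
      ((h2 _).1 ((t φ _ fun _ => a).2 ((hφ _).2 r))))))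
    rw [t, t, const _ _ (fun ⟨j, e⟩ => ha ⟨_, e⟩) fun ⟨j, e⟩ => hb ⟨_, e⟩]
    rintro ⟨u, v, ⟨x1, a1⟩, ⟨x2, a2⟩, ⟨x3, a3⟩, x4, a4⟩
    exact h1 i ⟨e ∘ u, e ∘ v, ⟨e ∘ x1, by simpa [t] using a1⟩, ⟨e ∘ x2, by simpa [t] using a2⟩,
      ⟨e ∘ x3, by simpa [t] using a3⟩, e ∘ x4, by simpa [t] using a4⟩
  have ne : y (.inl 0) ≠ y (.inl 1) := fun q => by
    simpa using e0.injective ((hy (.inl 0)).symm.trans ((congrArg e q).trans (hy (.inl 1))))
  obtain ⟨u, u1, u2⟩ := (Ioi_infinite (y (.inl 0) ⊔ y (.inl 1))).exists_notMem_finite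
    (finite_range y)
  obtain ⟨v, v1, v2⟩ := (Ioo_infinite (min_lt_max.2 ne)).exists_notMem_finite (finite_range y)
  replace u1 : y (.inl 0) < u ∧ y (.inl 1) < u := ⟨le_sup_left.trans_lt u1, le_sup_right.trans_lt u1⟩
  rcases ne.lt_or_gt with q | q
  · rw [min_eq_left q.le, max_eq_right q.le] at v1
    rcases k v v2 u u2 (.inl v1) with a | a | a
    exacts [a.2.not_gt u1.2, a.2.not_gt q, a.1.not_gt q]
  · rw [min_eq_right q.le, max_eq_left q.le] at v1
    rcases k u u2 v v2 (.inr (.inr ⟨q, u1.1⟩)) with a | a | a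
    exacts [a.1.not_gt v1.2, a.1.not_gt v1.1, a.2.not_gt v1.2]

end Pool.Agent.Results.MP_670fc8_lc.No
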